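import Pool.Agent.SQD.Stmts

/-!
Row NSQ of squad SQD: for a nonsquare `d` there is an `m` coprime to `4 d` with `(d / m) = -1`.
-/

set_option autoImplicit false

namespace Pool.Agent.SQD.H1

open Pool.Agent.SQD

/-- the Jacobi symbol `(c / m)` for `m ≡ 1` modulo `4 c` -/
lemma jac_one {c m : ℕ} (hc : c ≠ 0) (hm : m ≡ 1 [MOD 4 * c]) : jacobiSym c m = 1 := by
  have hodd : Odd m := by
    have h2 : m ≡ 1 [MOD 2] := hm.of_dvd ⟨2 * c, by ring⟩
    rw [Nat.odd_iff]
    exact h2
  have h1 := jacobiSym.mod_right (c : ℤ) hodd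
  rw [h1]
  have h4 : 1 < 4 * c := by omega
  have h5 : m % (4 * ((c : ℤ)).natAbs) = 1 := by
    have : ((c : ℤ)).natAbs = c := Int.natAbs_natCast c
    rw [this]
    have h6 : m % (4 * c) = 1 % (4 * c) := hm
    rw [h6, Nat.mod_eq_of_lt h4]
  rw [h5]
  exact jacobiSym.one_right _

theorem nsq : NsqStmt := by
  intro d hd
  have hd0 : d ≠ 0 := by
    rintro rfl
    exact hd ⟨0, rfl⟩
  obtain ⟨a, b, hab, hsq⟩ := Nat.sq_mul_squarefree d
  have ha1 : a ≠ 1 := by
    rintro rfl
    exact hd ⟨b, by rw [← hab]; ring⟩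
  have ha0 : a ≠ 0 := by
    rintro rfl
    exact hd0 (by rw [← hab]; ring)
  have hb0 : b ≠ 0 := by
    rintro rfl
    exact hd0 (by rw [← hab]; ring)
  -- reduction to `a`
  have key : ∀ m : ℕ, Nat.Coprime m (4 * d) → jacobiSym d m = jacobiSym a m := by
    intro m hm
    have h1 : (d : ℤ) = (b : ℤ) ^ 2 * (a : ℤ) := by
      rw [← hab]; push_cast; ring
    rw [h1, jacobiSym.mul_left]
    have hbm : Int.gcd (b : ℤ) (m : ℤ) = 1 := by
      have h2 : Nat.Coprime m b := by
        refine Nat.Coprime.coprime_dvd_right ?_ hm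
        exact ⟨4 * b * a, by rw [← hab]; ring⟩
      rw [Int.gcd_natCast_natCast]
      exact h2.symm
    rw [jacobiSym.sq_one' hbm, one_mul]
  by_cases hp : ∃ p : ℕ, p.Prime ∧ p ≠ 2 ∧ p ∣ a
  · obtain ⟨p, hp, hp2, c, hc⟩ := hp
    have hpc : ¬ p ∣ c := by
      intro h
      have h1 : p * p ∣ a := by
        rw [hc]
        exact Nat.mul_dvd_mul_left p h
      have := hsq p h1
      exact hp.one_lt.ne' (Nat.isUnit_iff.1 this)
    have hc0 : c ≠ 0 := by
      rintro rfl
      exact ha0 (by rw [hc]; ring)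
    have : Fact p.Prime := ⟨hp⟩
    have hchar : ringChar (ZMod p) ≠ 2 := by
      rw [ZMod.ringChar_zmod_n]
      exact hp2
    obtain ⟨u, hu⟩ := FiniteField.exists_nonsquare (F := ZMod p) hchar
    have hodd : Odd p := hp.odd_of_ne_two hp2
    -- the part of `4 d` which is coprime to `p`
    have h4d : 4 * d ≠ 0 := by omega
    obtain ⟨v, M, hMp, hM⟩ := Nat.exists_eq_pow_mul_and_not_dvd h4d p hp.ne_one
    have hcopM : Nat.Coprime M p := (Nat.Coprime.symm ((Nat.Prime.coprime_iff_not_dvd hp).2 hMp))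
    have h4c : 4 * c ∣ M := by
      have h1 : 4 * c ∣ p ^ v * M := by
        rw [← hM, ← hab, hc]
        exact ⟨b ^ 2 * p, by ring⟩
      have h2 : Nat.Coprime (4 * c) (p ^ v) := by
        apply Nat.Coprime.pow_right
        apply Nat.Coprime.symm
        rw [Nat.Prime.coprime_iff_not_dvd hp]
        intro h3
        rcases (hp.dvd_mul).1 h3 with h4 | h4
        · have h5 : p ∣ 2 := hp.dvd_of_dvd_pow (n := 2) (by simpa using h4)
          exact hp2 ((Nat.prime_dvd_prime_iff_eq hp Nat.prime_two).1 h5)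
        · exact hpc h4
      exact h2.dvd_of_dvd_mul_left h1
    obtain ⟨m, hm1, hm2⟩ := Nat.chineseRemainder hcopM 1 u.val
    have hup : ¬ p ∣ u.val := by
      intro h
      apply hu
      have h0 : u = 0 := by
        have h1 : ((u.val : ℕ) : ZMod p) = 0 := (ZMod.natCast_eq_zero_iff _ _).2 h
        rwa [ZMod.natCast_zmod_val] at h1
      rw [h0]
      exact ⟨0, by ring⟩
    have hmp : Nat.Coprime m p := by
      apply Nat.Coprime.symm
      rw [Nat.Prime.coprime_iff_not_dvd hp]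
      intro h
      apply hup
      exact (hm2.dvd_iff dvd_rfl).1 h
    have hmM : Nat.Coprime m M := by
      have h1 : Nat.gcd m M = Nat.gcd 1 M := hm1.gcd_eq
      rw [Nat.coprime_iff_gcd_eq_one, h1, Nat.gcd_one_left]
    have hm : Nat.Coprime m (4 * d) := by
      rw [hM]
      exact Nat.Coprime.mul_right (Nat.Coprime.pow_right v hmp) hmM
    refine ⟨m, hm, ?_⟩
    rw [key m hm]
    have h1 : (a : ℤ) = (p : ℤ) * (c : ℤ) := by rw [hc]; push_cast; ring
    rw [h1, jacobiSym.mul_left]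
    have hmc : m ≡ 1 [MOD 4 * c] := hm1.of_dvd h4c
    rw [jac_one hc0 hmc, mul_one]
    have hm4 : m % 4 = 1 := by
      have h2 : m ≡ 1 [MOD 4] := hmc.of_dvd ⟨c, rfl⟩
      exact h2
    rw [← jacobiSym.quadratic_reciprocity_one_mod_four hm4 hodd]
    have h3 : jacobiSym (m : ℤ) p = jacobiSym ((u.val : ℕ) : ℤ) p := by
      apply jacobiSym.mod_left'
      have h4 : m % p = u.val % p := hm2
      exact_mod_cast h4
    rw [h3]
    rw [ZMod.nonsquare_iff_jacobiSym_eq_neg_one]
    rw [Int.cast_natCast, ZMod.natCast_zmod_val]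
    exact hu
  · have ha2 : a = 2 := by
      have h1 : ∀ q : ℕ, q.Prime → q ∣ a → q = 2 := by
        intro q hq hqa
        by_contra h
        exact hp ⟨q, hq, h, hqa⟩
      have h2 : 2 ∣ a := by
        have h3 := Nat.minFac_dvd a
        have h4 := h1 a.minFac (Nat.minFac_prime ha1) h3
        rwa [h4] at h3
      obtain ⟨c, hc⟩ := h2
      by_cases hc1 : c = 1
      · rw [hc, hc1]
      · exfalso
        have h3 := Nat.minFac_dvd c
        have h4 := h1 c.minFac (Nat.minFac_prime hc1) (h3.trans ⟨2, by rw [hc]; ring⟩)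
        rw [h4] at h3
        have h5 : 2 * 2 ∣ a := by
          rw [hc]
          exact Nat.mul_dvd_mul_left 2 h3
        have := hsq 2 h5
        exact absurd (Nat.isUnit_iff.1 this) (by norm_num)
    obtain ⟨v, M, hMp, hM⟩ := Nat.exists_eq_pow_mul_and_not_dvd hd0 2 (by norm_num)
    have hcopM : Nat.Coprime 8 M := by
      have h1 : Nat.Coprime 2 M := (Nat.Prime.coprime_iff_not_dvd Nat.prime_two).2 hMp
      have h2 : Nat.Coprime (2 ^ 3) M := Nat.Coprime.pow_left 3 h1
      simpa using h2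
    obtain ⟨m, hm1, hm2⟩ := Nat.chineseRemainder hcopM 5 1
    have hm8 : m % 8 = 5 := hm1
    have hmM : Nat.Coprime m M := by
      have h1 : Nat.gcd m M = Nat.gcd 1 M := hm2.gcd_eq
      rw [Nat.coprime_iff_gcd_eq_one, h1, Nat.gcd_one_left]
    have hm2' : Nat.Coprime m 2 := by
      apply Nat.Coprime.symm
      rw [Nat.Prime.coprime_iff_not_dvd Nat.prime_two]
      omega
    have hm : Nat.Coprime m (4 * d) := by
      have h1 : 4 * d = 2 ^ (v + 2) * M := by rw [hM]; ring
      rw [h1]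
      exact Nat.Coprime.mul_right (Nat.Coprime.pow_right _ hm2') hmM
    refine ⟨m, hm, ?_⟩
    rw [key m hm, ha2]
    have hodd : Odd m := by
      rw [Nat.odd_iff]
      omega
    have h2 : jacobiSym ((2 : ℕ) : ℤ) m = jacobiSym 2 m := by norm_num
    rw [h2, jacobiSym.at_two hodd, ZMod.χ₈_nat_eq_if_mod_eight]
    have h3 : m % 2 ≠ 0 := by omega
    simp [hm8, h3]

end Pool.Agent.SQD.H1
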